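import Mathlib

set_option autoImplicit false

namespace Pool.Agent.Lib.MP_20b9c8_an

/-- A topological dynamical system `(X, T)`: a nonempty compact metric space `X` with a
homeomorphism `T : X → X`. -/
structure Sys where
  X : Type
  [metric : MetricSpace X]
  [compact : CompactSpace X]
  [nonempty : Nonempty X]
  T : X ≃ₜ X

attribute [instance] Sys.metric Sys.compact Sys.nonempty

/-- The orbit closure of `x` under the homeomorphism `T`: the closure of `{T ^ n x : n ∈ ℤ}`. -/
def orbitClosure {X : Type} [TopologicalSpace X] (T : X ≃ₜ X) (x : X) : Set X :=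
  closure (Set.range fun n : ℤ => (T ^ n) x)

/-- `x` is a minimal point of `(X, T)`: its orbit closure is a minimal subsystem, that is, every
point of the orbit closure of `x` has the same orbit closure. -/
def IsMinimalPoint {X : Type} [TopologicalSpace X] (T : X ≃ₜ X) (x : X) : Prop :=
  ∀ y ∈ orbitClosure T x, orbitClosure T y = orbitClosure T x

/-- `(X, T)` is minimal: every orbit is dense. -/
def IsMinimal (X : Sys) : Prop := ∀ x, orbitClosure X.T x = Set.univ

/-- `(X, T)` is equicontinuous: the family `{T ^ n : n ∈ ℤ}` is (uniformly) equicontinuous. -/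
def IsEquicontinuous (X : Sys) : Prop :=
  ∀ ε > 0, ∃ δ > 0, ∀ x x' : X.X, dist x x' < δ → ∀ n : ℤ, dist ((X.T ^ n) x) ((X.T ^ n) x') < ε

/-- `π` is a factor map `(X, T) → (Y, T)`. -/
structure IsFactorMap (X Y : Sys) (π : X.X → Y.X) : Prop where
  continuous : Continuous π
  surjective : Function.Surjective π
  equivariant : ∀ x, π (X.T x) = Y.T (π x)

/-- The extension `π` is proximal: if `π x = π x'` then `inf_n d(T ^ n x, T ^ n x') = 0`. -/
def IsProximalExt (X Y : Sys) (π : X.X → Y.X) : Prop :=
  ∀ x x', π x = π x' → ∀ ε > 0, ∃ n : ℤ, dist ((X.T ^ n) x) ((X.T ^ n) x') < ε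

/-- The extension `π` is isometric (equicontinuous): the powers of `T` are equicontinuous on the
fibres of `π`, uniformly over all the fibres. -/
def IsIsometricExt (X Y : Sys) (π : X.X → Y.X) : Prop :=
  ∀ ε > 0, ∃ δ > 0, ∀ x x', π x = π x' → dist x x' < δ →
    ∀ n : ℤ, dist ((X.T ^ n) x) ((X.T ^ n) x') < ε

/-- A factor of the system `W`: a system `Z` with a factor map `π : W → Z`. -/
structure Factor (W : Sys) where
  Z : Sys
  π : W.X → Z.X
  isFactorMap : IsFactorMap W Z π

/-- The factor `A` of `W` lies below the factor `B`: the map `W → A` is the composition of `W → B`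
with a factor map `p : B → A`; if moreover `s` holds, then `p` is proximal or isometric. -/
def Below {W : Sys} (A B : Factor W) (s : Prop) : Prop :=
  ∃ p : B.Z.X → A.Z.X, IsFactorMap B.Z A.Z p ∧ (∀ w, p (B.π w) = A.π w) ∧
    (s → IsProximalExt B.Z A.Z p ∨ IsIsometricExt B.Z A.Z p)

/-- The minimal system `X` is PI (proximal-isometric): there are a minimal system `W`, a proximal
extension `q : W → X`, an ordinal `η` and factors `F ν` of `W` (`ν ≤ η`) such that `F 0` is the
one-point system, `F η` is (isomorphic to) `W`, `F μ` is a factor of `F ν` for `μ ≤ ν`, through a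
proximal or an isometric extension if `ν = μ + 1`, and `F ν` is the inverse limit of the `F μ`
(`μ < ν`), i.e. these separate the points of `F ν`, for every limit ordinal `ν ≤ η`. -/
def IsPI (X : Sys) : Prop :=
  ∃ (W : Sys) (q : W.X → X.X) (η : Ordinal.{0}) (F : Ordinal.{0} → Factor W),
    IsMinimal W ∧ IsFactorMap W X q ∧ IsProximalExt W X q ∧
    Subsingleton (F 0).Z.X ∧ Function.Injective (F η).π ∧
    (∀ μ ν, μ ≤ ν → ν ≤ η → Below (F μ) (F ν) (ν = μ + 1)) ∧
    (∀ ν ≤ η, Order.IsSuccLimit ν → ∀ w w',
      (∀ μ < ν, (F μ).π w = (F μ).π w') → (F ν).π w = (F ν).π w')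

end Pool.Agent.Lib.MP_20b9c8_an
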