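import Mathlib

set_option autoImplicit false

open Filter Topology

namespace Pool.Agent.Lib.MP_20b9c8_an

lemma circle_im_zero {z : Circle} (h : (z : ℂ).im = 0) : z ^ 4 = 1 := by
  have h1 : Complex.normSq (z : ℂ) = 1 := Circle.normSq_coe z
  rw [Complex.normSq_apply, h] at h1
  have h2 : (z : ℂ) ^ 2 = 1 := by
    apply Complex.ext
    · simp [pow_two, h]; linarith
    · simp [pow_two, h]
  apply Circle.ext
  rw [Circle.coe_pow, Circle.coe_one, show (4 : ℕ) = 2 * 2 by norm_num, pow_mul, h2, one_pow]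

/-- `1` on the lower half circle, `z ^ 4` on the upper half circle -/
noncomputable def theta (z : Circle) : Circle :=
  if (z : ℂ).im ≤ 0 then 1 else z ^ 4

lemma theta_of_nonpos {z : Circle} (h : (z : ℂ).im ≤ 0) : theta z = 1 := if_pos h

lemma theta_of_nonneg {z : Circle} (h : 0 ≤ (z : ℂ).im) : theta z = z ^ 4 := by
  unfold theta
  split_ifs with h'
  · exact (circle_im_zero (le_antisymm h' h)).symm
  · rfl

lemma continuous_theta : Continuous theta := by
  unfold theta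
  refine Continuous.if_le continuous_const (by fun_prop) (by fun_prop) continuous_const ?_
  intro z hz
  exact (circle_im_zero hz).symm

lemma exists_sqrt (t : Circle) : ∃ s : Circle, s * s = t := by
  refine ⟨Circle.exp (Complex.arg t / 2), ?_⟩
  rw [← Circle.exp_add, add_halves, Circle.exp_arg]

lemma exists_sqrt_nonneg (t : Circle) : ∃ s : Circle, s * s = t ∧ 0 ≤ (s : ℂ).im := by
  obtain ⟨s, hs⟩ := exists_sqrt t
  rcases le_total 0 (s : ℂ).im with h | h
  · exact ⟨s, hs, h⟩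
  · exact ⟨-s, by rw [neg_mul_neg, hs], by simpa using h⟩

lemma exists_sqrt_nonpos (t : Circle) : ∃ s : Circle, s * s = t ∧ (s : ℂ).im ≤ 0 := by
  obtain ⟨s, hs⟩ := exists_sqrt t
  rcases le_total (s : ℂ).im 0 with h | h
  · exact ⟨s, hs, h⟩
  · exact ⟨-s, by rw [neg_mul_neg, hs], by simpa using h⟩

lemma four_eq (s : Circle) : s ^ 4 = s * s * (s * s) := by
  simp only [pow_succ, pow_zero, one_mul, mul_assoc]

lemma aux_mul (u s : Circle) : u * (u⁻¹ * s * (u⁻¹ * s)) = s * s * u⁻¹ := by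
  rw [mul_mul_mul_comm, ← mul_assoc, mul_inv_cancel_left, mul_comm]

lemma theta_left (u w : Circle) : ∃ v : Circle, theta (u * v) = w ∧ theta (u * (v * v)) = 1 := by
  obtain ⟨t, ht⟩ := exists_sqrt w
  obtain ⟨t', ht', him⟩ : ∃ t' : Circle, t' * t' = w ∧ ((t' * u⁻¹ : Circle) : ℂ).im ≤ 0 := by
    rcases le_total ((t * u⁻¹ : Circle) : ℂ).im 0 with h | h
    · exact ⟨t, ht, h⟩
    · refine ⟨-t, by rw [neg_mul_neg, ht], ?_⟩
      rw [neg_mul, Circle.coe_neg, Complex.neg_im]
      linarith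
  obtain ⟨s, hs, hs'⟩ := exists_sqrt_nonneg t'
  refine ⟨u⁻¹ * s, ?_, ?_⟩
  · rw [mul_inv_cancel_left, theta_of_nonneg hs', ← ht', ← hs, four_eq]
  · have : u * (u⁻¹ * s * (u⁻¹ * s)) = t' * u⁻¹ := by
      rw [aux_mul, hs]
    rw [this]
    exact theta_of_nonpos him

lemma theta_right (u w : Circle) : ∃ v : Circle, theta (u * v) = 1 ∧ theta (u * (v * v)) = w := by
  obtain ⟨r, hr⟩ := exists_sqrt w
  obtain ⟨t, ht, ht'⟩ := exists_sqrt_nonneg r
  obtain ⟨s, hs, hs'⟩ := exists_sqrt_nonpos (t * u)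
  refine ⟨u⁻¹ * s, ?_, ?_⟩
  · rw [mul_inv_cancel_left, theta_of_nonpos hs']
  · have : u * (u⁻¹ * s * (u⁻¹ * s)) = t := by
      rw [aux_mul, hs, mul_inv_cancel_right]
    rw [this, theta_of_nonneg ht', ← hr, ← ht, four_eq]

lemma dist_exp_le (a b : ℝ) : dist (Circle.exp a) (Circle.exp b) ≤ |a - b| := by
  have h1 : dist (Circle.exp a) (Circle.exp b) = ‖Complex.exp (Complex.I * (a - b : ℝ)) - 1‖ := by
    have h2 : Complex.exp (a * Complex.I) = Complex.exp (Complex.I * (a - b : ℝ)) * Complex.exp (b * Complex.I) := by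
      rw [← Complex.exp_add]
      congr 1
      push_cast
      ring
    have h3 : dist (Circle.exp a) (Circle.exp b) = ‖(Complex.exp (a * Complex.I)) - (Complex.exp (b * Complex.I))‖ := by
      rw [← dist_eq_norm]
      rfl
    rw [h3, h2]
    have h4 : Complex.exp (Complex.I * (a - b : ℝ)) * Complex.exp (b * Complex.I) - Complex.exp (b * Complex.I)
      = (Complex.exp (Complex.I * (a - b : ℝ)) - 1) * Complex.exp (b * Complex.I) := by ring
    rw [h4, norm_mul, Complex.norm_exp_ofReal_mul_I, mul_one]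
  rw [h1]
  exact Real.norm_exp_I_mul_ofReal_sub_one_le

/-- `q`-th roots can be chosen close to a given point -/
lemma exists_root_near (q : ℕ) (hq : 0 < q) (c v : Circle) :
    ∃ b : Circle, b ^ q = v ∧ dist b c ≤ 2 * Real.pi / q := by
  have hq' : (0 : ℝ) < q := by exact_mod_cast hq
  have hpi : (0 : ℝ) < 2 * Real.pi := Real.two_pi_pos
  set γ := Complex.arg (c : ℂ)
  set ν := Complex.arg (v : ℂ)
  set k : ℤ := ⌊(q * γ - ν) / (2 * Real.pi)⌋
  have hk1 : (k : ℝ) ≤ (q * γ - ν) / (2 * Real.pi) := Int.floor_le _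
  have hk2 : (q * γ - ν) / (2 * Real.pi) < k + 1 := Int.lt_floor_add_one _
  rw [le_div_iff₀ hpi] at hk1
  rw [div_lt_iff₀ hpi] at hk2
  refine ⟨Circle.exp ((ν + k * (2 * Real.pi)) / q), ?_, ?_⟩
  · rw [← Circle.exp_natCast_mul, mul_div_cancel₀ _ hq'.ne', Circle.exp_add,
      Circle.exp_intCast_mul]
    simp [ν]
  · have hc : c = Circle.exp γ := (Circle.exp_arg c).symm
    conv_lhs => rw [hc]
    refine (dist_exp_le _ _).trans ?_
    rw [le_div_iff₀ hq', ← abs_of_pos hq', ← abs_mul, abs_of_pos hq', sub_mul,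
      div_mul_cancel₀ _ hq'.ne', abs_le]
    constructor <;> nlinarith

lemma exists_pow_near_one (α : Circle) {δ : ℝ} (hδ : 0 < δ) (N : ℕ) :
    ∃ q : ℕ, N ≤ q ∧ 0 < q ∧ dist (α ^ q) 1 < δ := by
  have h := (mapClusterPt_one_atTop_pow α).frequently (Metric.ball_mem_nhds 1 hδ)
  obtain ⟨q, hq, h2⟩ := (h.and_eventually (eventually_ge_atTop (N + 1))).exists
  exact ⟨q, by omega, by omega, hq⟩

end Pool.Agent.Lib.MP_20b9c8_an
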