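import Mathlib
import Pool.Agent.Lib.MP_20b9c8_an.Theta

set_option autoImplicit false

open Filter Topology

namespace Pool.Agent.Lib.MP_20b9c8_an

lemma circle_dist_eq (a b : Circle) : dist a b = ‖(a : ℂ) - b‖ := by
  rw [← dist_eq_norm]; rfl

lemma circle_dist_mul_mul_le (a b c d : Circle) : dist (a * b) (c * d) ≤ dist a c + dist b d := by
  rw [circle_dist_eq, circle_dist_eq, circle_dist_eq]
  have : ((a * b : Circle) : ℂ) - (c * d : Circle) = ((a : ℂ) - c) * b + c * ((b : ℂ) - d) := by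
    push_cast; ring
  rw [this]
  refine (norm_add_le _ _).trans ?_
  rw [norm_mul, norm_mul, Circle.norm_coe, Circle.norm_coe, mul_one, one_mul]

lemma circle_dist_mul_left (a b c : Circle) : dist (a * b) (a * c) = dist b c := by
  rw [circle_dist_eq, circle_dist_eq]
  have : ((a * b : Circle) : ℂ) - (a * c : Circle) = a * ((b : ℂ) - c) := by
    push_cast; ring
  rw [this, norm_mul, Circle.norm_coe, one_mul]

lemma circle_dist_mul_right (a b c : Circle) : dist (b * a) (c * a) = dist b c := by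
  rw [mul_comm b, mul_comm c, circle_dist_mul_left]

lemma unif {X Y : Type} [MetricSpace X] [CompactSpace X] [MetricSpace Y] {f : X → Y}
    (hf : Continuous f) {ε : ℝ} (hε : 0 < ε) : ∃ δ > 0, ∀ a b, dist a b < δ → dist (f a) (f b) < ε := by
  have := CompactSpace.uniformContinuous_of_continuous hf
  obtain ⟨δ, hδ, h⟩ := Metric.uniformContinuous_iff.1 this ε hε
  exact ⟨δ, hδ, fun a b hab => h hab⟩

theorem key_theta (α : Circle) {δ : ℝ} (hδ : 0 < δ) :
    ∃ Θ : Circle → Circle, Continuous Θ ∧ (∀ z, dist (Θ (α * z)) (Θ z) < δ) ∧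
      ∀ y c w₁ w₂ : Circle, ∃ b : Circle, dist b c < δ ∧ dist (Θ (y * b)) w₁ < δ ∧
        dist (Θ (y * (b * b))) w₂ < δ := by
  obtain ⟨δ₁, hδ₁, h1⟩ := unif continuous_theta (half_pos hδ)
  have hN : ∀ {η : ℝ}, 0 < η → ∃ N : ℕ, ∀ q : ℕ, N ≤ q → 0 < q → 2 * Real.pi / q < η := by
    intro η hη
    obtain ⟨N, hN⟩ := exists_nat_gt (2 * Real.pi / η)
    refine ⟨N, fun q hq hq0 => ?_⟩
    have hq0' : (0 : ℝ) < q := by exact_mod_cast hq0
    rw [div_lt_comm₀ hq0' hη]
    exact hN.trans_le (by exact_mod_cast hq)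
  obtain ⟨N₁, hN₁⟩ := hN (half_pos hδ)
  obtain ⟨q₁, hq₁, hq₁', hα₁⟩ := exists_pow_near_one α hδ₁ N₁
  obtain ⟨δ₂, hδ₂, h2⟩ := unif (X := Circle) (Y := Circle) (f := fun b => b ^ q₁) (by fun_prop) hδ₁
  obtain ⟨δ₃, hδ₃, h3⟩ := unif (X := Circle) (Y := Circle) (f := fun b => (b * b) ^ q₁)
    (by fun_prop) hδ₁
  have hm : 0 < min (min δ₂ δ₃) (δ / 2) := by positivity
  obtain ⟨N₂, hN₂⟩ := hN hm
  obtain ⟨q₂, hq₂, hq₂', hα₂⟩ := exists_pow_near_one α hδ₁ N₂
  refine ⟨fun z => theta (z ^ q₁) * theta (z ^ q₂), ?_, ?_, ?_⟩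
  · exact (continuous_theta.comp (by fun_prop)).mul (continuous_theta.comp (by fun_prop))
  · intro z
    refine (circle_dist_mul_mul_le _ _ _ _).trans_lt ?_
    have e1 : dist (theta ((α * z) ^ q₁)) (theta (z ^ q₁)) < δ / 2 := by
      apply h1
      rw [mul_pow]
      conv_lhs => rw [← one_mul (z ^ q₁)]
      rw [show (α ^ q₁ * (1 * z ^ q₁)) = α ^ q₁ * z ^ q₁ by rw [one_mul], circle_dist_mul_right]
      exact hα₁
    have e2 : dist (theta ((α * z) ^ q₂)) (theta (z ^ q₂)) < δ / 2 := by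
      apply h1
      rw [mul_pow]
      conv_lhs => rw [← one_mul (z ^ q₂)]
      rw [show (α ^ q₂ * (1 * z ^ q₂)) = α ^ q₂ * z ^ q₂ by rw [one_mul], circle_dist_mul_right]
      exact hα₂
    linarith
  · intro y c w₁ w₂
    obtain ⟨v, hv1, hv2⟩ := theta_left (y ^ q₁) w₁
    obtain ⟨b₁, hb₁, hb₁'⟩ := exists_root_near q₁ hq₁' c v
    obtain ⟨v', hv1', hv2'⟩ := theta_right (y ^ q₂) w₂
    obtain ⟨b, hb, hb'⟩ := exists_root_near q₂ hq₂' b₁ v'
    have hd := hb'.trans_lt (hN₂ q₂ hq₂ hq₂')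
    have hd' := hb₁'.trans_lt (hN₁ q₁ hq₁ hq₁')
    refine ⟨b, ?_, ?_, ?_⟩
    · refine (dist_triangle b b₁ c).trans_lt ?_
      have := hd.trans_le (min_le_right _ _)
      linarith
    · have e1 : theta ((y * b) ^ q₂) = 1 := by rw [mul_pow, hb, hv1']
      simp only [e1, mul_one]
      have e2 : theta ((y * b₁) ^ q₁) = w₁ := by rw [mul_pow, hb₁, hv1]
      rw [← e2]
      refine (h1 _ _ ?_).trans (half_lt_self hδ)
      rw [mul_pow, mul_pow, circle_dist_mul_left]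
      exact h2 _ _ (hd.trans_le ((min_le_left _ _).trans (min_le_left _ _)))
    · have e1 : theta ((y * (b * b)) ^ q₂) = w₂ := by rw [mul_pow, mul_pow, hb, hv2']
      simp only [e1]
      conv_lhs => rw [← one_mul w₂]
      rw [show theta ((y * (b * b)) ^ q₁) * (1 * w₂) = theta ((y * (b * b)) ^ q₁) * w₂ by
        rw [one_mul], circle_dist_mul_right]
      have e2 : theta ((y * (b₁ * b₁)) ^ q₁) = 1 := by rw [mul_pow, mul_pow b₁, hb₁, hv2]
      rw [← e2]
      refine (h1 _ _ ?_).trans (half_lt_self hδ)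
      rw [mul_pow, mul_pow y, circle_dist_mul_left]
      exact h3 _ _ (hd.trans_le ((min_le_left _ _).trans (min_le_right _ _)))

end Pool.Agent.Lib.MP_20b9c8_an
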