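import Mathlib
import Pool.Agent.Lib.MP_20b9c8_an.Keys

set_option autoImplicit false

open Filter Topology

namespace Pool.Agent.Lib.MP_20b9c8_an

lemma mob_ne {r : ℝ} (hr : |r| < 1) (z : Circle) : (1 : ℂ) + r * z ≠ 0 := by
  intro h
  have h1 : (r : ℂ) * z = -1 := by linear_combination h
  have h2 : ‖(r : ℂ) * z‖ = 1 := by rw [h1]; simp
  rw [norm_mul, Circle.norm_coe, mul_one, Complex.norm_real, Real.norm_eq_abs] at h2
  linarith

/-- the Moebius map `z ↦ (z + r) / (1 + r z)` of the circle -/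
noncomputable def mob (r : ℝ) (hr : |r| < 1) (z : Circle) : Circle :=
  z * Circle.ofConjDivSelf (1 + r * z) (mob_ne hr z)

lemma coe_mob (r : ℝ) (hr : |r| < 1) (z : Circle) :
    ((mob r hr z : Circle) : ℂ) = (z + r) / (1 + r * z) := by
  have h0 := mob_ne hr z
  have hz : (z : ℂ) * (starRingEnd ℂ) z = 1 := by
    rw [Complex.mul_conj, Circle.normSq_coe]; simp
  rw [mob, Circle.coe_mul, Circle.ofConjDivSelf_coe, mul_div_assoc']
  congr 1
  simp only [map_add, map_one, map_mul, Complex.conj_ofReal]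
  linear_combination (r : ℂ) * hz

lemma continuous_mob (r : ℝ) (hr : |r| < 1) : Continuous (mob r hr) := by
  have : Continuous fun z : Circle => ((mob r hr z : Circle) : ℂ) := by
    simp only [coe_mob]
    exact Continuous.div (by fun_prop) (by fun_prop) (fun z => mob_ne hr z)
  exact continuous_induced_rng.2 this

lemma mob_aux1 (w ρ : ℂ) (h0 : 1 + ρ * w ≠ 0) :
    (w + ρ) / (1 + ρ * w) + -ρ = w * (1 + -ρ * ((w + ρ) / (1 + ρ * w))) := by
  have h : (w + ρ) / (1 + ρ * w) * (1 + ρ * w) = w + ρ := div_mul_cancel₀ _ h0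
  generalize (w + ρ) / (1 + ρ * w) = q at h
  linear_combination h

lemma mob_aux2 (w ρ : ℂ) (h0 : 1 + ρ * w ≠ 0) :
    (w + ρ) / (1 + ρ * w) - 1 = (1 - ρ) * (w - 1) / (1 + ρ * w) := by
  rw [div_sub_one h0]
  congr 1
  ring

lemma mob_mob (r : ℝ) (hr : |r| < 1) (hr' : |(-r)| < 1) (z : Circle) :
    mob (-r) hr' (mob r hr z) = z := by
  apply Circle.ext
  have h0 := mob_ne hr z
  have h1 := mob_ne hr' (mob r hr z)
  rw [coe_mob, coe_mob]
  rw [coe_mob] at h1
  rw [div_eq_iff h1]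
  push_cast
  exact mob_aux1 _ _ h0

/-- the Moebius map as a homeomorphism of the circle -/
noncomputable def mobHomeo (r : ℝ) (hr : |r| < 1) : Circle ≃ₜ Circle where
  toFun := mob r hr
  invFun := mob (-r) (by rwa [abs_neg])
  left_inv z := mob_mob r hr _ z
  right_inv z := by
    have hr2 : |(-r)| < 1 := by rwa [abs_neg]
    have hr3 : |(-(-r))| < 1 := by rwa [neg_neg]
    have := mob_mob (-r) hr2 hr3 z
    simpa only [neg_neg] using this
  continuous_toFun := continuous_mob r hr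
  continuous_invFun := continuous_mob _ _

lemma mob_near_one {r : ℝ} (hr0 : 3 / 4 ≤ r) (hr1 : r < 1) (hr : |r| < 1) (z : Circle)
    (hz : 1 ≤ ‖(1 : ℂ) + z‖) : dist (mob r hr z) 1 ≤ 4 * (1 - r) := by
  have h0 := mob_ne hr z
  rw [circle_dist_eq, coe_mob, Circle.coe_one]
  have h1 : ((z : ℂ) + r) / (1 + r * z) - 1 = (1 - r) * (z - 1) / (1 + r * z) :=
    mob_aux2 _ _ h0
  rw [h1, norm_div, norm_mul]
  have h2 : ‖(1 : ℂ) - r‖ = 1 - r := by
    rw [show (1 : ℂ) - r = ((1 - r : ℝ) : ℂ) by push_cast; ring, Complex.norm_real,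
      Real.norm_eq_abs, abs_of_pos (by linarith)]
  have h3 : ‖(z : ℂ) - 1‖ ≤ 2 := by
    refine (norm_sub_le _ _).trans ?_
    rw [Circle.norm_coe, norm_one]; norm_num
  have h4 : 1 / 2 ≤ ‖(1 : ℂ) + r * z‖ := by
    have h5 : (1 : ℂ) + r * z = r * (1 + z) + (1 - r : ℝ) := by push_cast; ring
    have h6 : ‖(r : ℂ) * (1 + z)‖ = r * ‖(1 : ℂ) + z‖ := by
      rw [norm_mul, Complex.norm_real, Real.norm_eq_abs, abs_of_pos (by linarith)]
    have h7 : ‖((1 - r : ℝ) : ℂ)‖ = 1 - r := by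
      rw [Complex.norm_real, Real.norm_eq_abs, abs_of_pos (by linarith)]
    have h8 : ‖(r : ℂ) * (1 + z)‖ - ‖((1 - r : ℝ) : ℂ)‖ ≤ ‖(r : ℂ) * (1 + z) + ((1 - r : ℝ) : ℂ)‖ := by
      have := norm_sub_norm_le ((r : ℂ) * (1 + z)) (-((1 - r : ℝ) : ℂ))
      rwa [norm_neg, sub_neg_eq_add] at this
    rw [← h5, h6, h7] at h8
    nlinarith
  rw [h2, div_le_iff₀ (by linarith)]
  have h9 : (1 - r) * ‖(z : ℂ) - 1‖ ≤ (1 - r) * 2 := mul_le_mul_of_nonneg_left h3 (by linarith)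
  nlinarith

/-- the imaginary unit as a point of the circle -/
noncomputable def iC : Circle := Circle.exp (Real.pi / 2)

lemma coe_iC : ((iC : Circle) : ℂ) = Complex.I := by
  rw [iC, Circle.coe_exp]
  push_cast
  exact Complex.exp_pi_div_two_mul_I

lemma far_point (e e' : Circle) : ∃ s : Circle, 1 ≤ ‖(1 : ℂ) + (s * e : Circle)‖ ∧
    1 ≤ ‖(1 : ℂ) + (s * e' : Circle)‖ := by
  have hI : ∀ x : ℂ, (x = Complex.I ∨ x = -Complex.I) → 1 ≤ ‖1 + x‖ := by
    intro x hx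
    have h1 : (1 + x).re = 1 := by
      rcases hx with rfl | rfl <;> simp
    have h2 := Complex.abs_re_le_norm (1 + x)
    rw [h1, abs_one] at h2
    exact h2
  by_cases h : 1 ≤ ‖(1 : ℂ) + (iC * e⁻¹ * e' : Circle)‖
  · refine ⟨iC * e⁻¹, ?_, h⟩
    rw [inv_mul_cancel_right]
    exact hI _ (Or.inl coe_iC)
  · refine ⟨-(iC * e⁻¹), ?_, ?_⟩
    · rw [neg_mul, inv_mul_cancel_right, Circle.coe_neg]
      exact hI _ (Or.inr (by rw [coe_iC]))
    · rw [neg_mul, Circle.coe_neg]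
      push Not at h
      have h2 : (2 : ℝ) ≤ ‖(1 : ℂ) + (iC * e⁻¹ * e' : Circle)‖ + ‖(1 : ℂ) + -(iC * e⁻¹ * e' : Circle)‖ := by
        refine le_trans ?_ (norm_add_le _ _)
        rw [show (1 : ℂ) + (iC * e⁻¹ * e' : Circle) + (1 + -(iC * e⁻¹ * e' : Circle)) = 2 by ring]
        simp
      linarith

theorem key_prox {δ : ℝ} (hδ : 0 < δ) : ∃ k : Circle ≃ₜ Circle, ∀ e e' : Circle,
    ∃ s : Circle, dist (k (s * e)) (k (s * e')) < δ := by
  set η := min (1 / 4) (δ / 16) with hη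
  have hη0 : 0 < η := by positivity
  have hη1 : η ≤ 1 / 4 := min_le_left _ _
  have hη2 : η ≤ δ / 16 := min_le_right _ _
  have hr : |1 - η| < 1 := by rw [abs_lt]; constructor <;> linarith
  refine ⟨mobHomeo (1 - η) hr, fun e e' => ?_⟩
  obtain ⟨s, h1, h2⟩ := far_point e e'
  refine ⟨s, ?_⟩
  have h3 := mob_near_one (by linarith) (by linarith) hr _ h1
  have h4 := mob_near_one (by linarith) (by linarith) hr _ h2
  refine (dist_triangle_right _ _ 1).trans_lt ?_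
  have h5 : dist ((mobHomeo (1 - η) hr) (s * e)) 1 ≤ 4 * (1 - (1 - η)) := h3
  have h6 : dist ((mobHomeo (1 - η) hr) (s * e')) 1 ≤ 4 * (1 - (1 - η)) := h4
  linarith

end Pool.Agent.Lib.MP_20b9c8_an
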