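import Mathlib
import Pool.Agent.Lib.MP_20b9c8_an.Mobius

set_option autoImplicit false

open Filter Topology Set

namespace Pool.Agent.Lib.MP_20b9c8_an

section general

lemma baire_closure {E : Type} [MetricSpace E] [CompleteSpace E] (D : Set E) (hD : D.Nonempty)
    (P : ℕ → Set E) (hP : ∀ j, IsOpen (P j))
    (hdense : ∀ j, ∀ d ∈ D, ∀ ε > 0, ∃ d' ∈ D, dist d' d < ε ∧ d' ∈ P j) :
    ∃ e ∈ closure D, ∀ j, e ∈ P j := by
  have : CompleteSpace (closure D) := isClosed_closure.completeSpace_coe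
  have : Nonempty (closure D) := by
    obtain ⟨d, hd⟩ := hD
    exact ⟨⟨d, subset_closure hd⟩⟩
  have h := dense_iInter_of_isOpen (X := closure D) (f := fun j => Subtype.val ⁻¹' (P j))
    (fun j => (hP j).preimage continuous_subtype_val) (fun j => by
      rw [Metric.dense_iff]
      rintro ⟨c, hc⟩ r hr
      obtain ⟨d, hd, hdc⟩ := Metric.mem_closure_iff.1 hc (r / 2) (half_pos hr)
      obtain ⟨d', hd', hdd, hP'⟩ := hdense j d hd (r / 2) (half_pos hr)
      refine ⟨⟨d', subset_closure hd'⟩, ?_, hP'⟩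
      rw [Metric.mem_ball, Subtype.dist_eq]
      refine (dist_triangle d' d c).trans_lt ?_
      rw [dist_comm c d] at hdc
      linarith)
  obtain ⟨e, he⟩ := h.nonempty
  exact ⟨e.1, e.2, fun j => by simpa using mem_iInter.1 he j⟩

lemma isOpen_forall_exists_lt {E K : Type} [TopologicalSpace E] [TopologicalSpace K]
    [CompactSpace K] (Φ : ℕ → E × K → ℝ) (hΦ : ∀ n, Continuous (Φ n)) (ε : ℝ) :
    IsOpen {s : E | ∀ k, ∃ n, Φ n (s, k) < ε} := by
  have h1 : IsClosed {p : E × K | ∀ n, ε ≤ Φ n p} := by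
    rw [ofPred_forall]
    exact isClosed_iInter fun n => isClosed_le continuous_const (hΦ n)
  have h2 := isClosedMap_fst_of_compactSpace _ h1
  rw [← isClosed_compl_iff]
  convert h2 using 1
  ext s
  simp only [mem_compl_iff, mem_ofPred_eq, not_forall, not_exists, not_lt, mem_image, Prod.exists,
    exists_and_right, exists_eq_right]

lemma continuous_iter {X : Type} [MetricSpace X] [CompactSpace X] (n : ℕ) :
    Continuous fun p : C(X, X) × X => (p.1)^[n] p.2 := by
  induction n with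
  | zero => exact continuous_snd
  | succ n ih =>
    simp only [Function.iterate_succ_apply']
    exact continuous_fst.eval ih

end general

/-- the phase space -/
abbrev XX : Type := Circle × Circle

/-- the rotation by `β` in the first coordinate -/
noncomputable def rot (β : Circle) : XX ≃ₜ XX :=
  (Homeomorph.mulLeft β).prodCongr (Homeomorph.refl _)

lemma rot_apply (β : Circle) (x : XX) : rot β x = (β * x.1, x.2) := rfl

lemma rot_symm_apply (β : Circle) (x : XX) : (rot β).symm x = (β⁻¹ * x.1, x.2) := rfl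

/-- the conjugate of the rotation by `h` -/
noncomputable def conj (α : Circle) (h : XX ≃ₜ XX) : XX ≃ₜ XX :=
  h.symm.trans ((rot α).trans h)

lemma conj_apply (α : Circle) (h : XX ≃ₜ XX) (x : XX) :
    conj α h x = h (rot α (h.symm x)) := rfl

lemma conj_symm_apply (α : Circle) (h : XX ≃ₜ XX) (x : XX) :
    (conj α h).symm x = h ((rot α).symm (h.symm x)) := rfl

lemma rot_iter (α : Circle) (n : ℕ) (x : XX) : (rot α)^[n] x = (α ^ n * x.1, x.2) := by
  induction n with
  | zero => simp
  | succ n ih =>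
    rw [Function.iterate_succ_apply', ih, rot_apply, pow_succ', mul_assoc]

lemma conj_iter (α : Circle) (h : XX ≃ₜ XX) (n : ℕ) (x : XX) :
    (conj α h)^[n] x = h (α ^ n * (h.symm x).1, (h.symm x).2) := by
  rw [← rot_iter]
  induction n with
  | zero => simp
  | succ n ih =>
    rw [Function.iterate_succ_apply', ih, conj_apply, Function.iterate_succ_apply',
      Homeomorph.symm_apply_apply]

/-- the point of the space of pairs of maps given by the conjugate by `h` -/
noncomputable def pt (α : Circle) (h : XX ≃ₜ XX) : C(XX, XX) × C(XX, XX) :=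
  (⟨conj α h, (conj α h).continuous⟩, ⟨(conj α h).symm, (conj α h).symm.continuous⟩)

/-- homeomorphisms over the identity of the first coordinate -/
def Fib (h : XX ≃ₜ XX) : Prop := ∀ x, (h x).1 = x.1

lemma Fib.symm {h : XX ≃ₜ XX} (hh : Fib h) : Fib h.symm := by
  intro x
  have := hh (h.symm x)
  rw [Homeomorph.apply_symm_apply] at this
  exact this.symm

lemma Fib.trans {g h : XX ≃ₜ XX} (hg : Fib g) (hh : Fib h) : Fib (g.trans h) := by
  intro x
  rw [Homeomorph.trans_apply, hh, hg]

lemma perturb (α : Circle) (h : XX ≃ₜ XX) {ε : ℝ} (hε : 0 < ε) :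
    ∃ δ > 0, ∀ g : XX ≃ₜ XX, (∀ x, dist (g (rot α (g.symm x))) (rot α x) < δ) →
      (∀ x, dist (g ((rot α).symm (g.symm x))) ((rot α).symm x) < δ) →
      dist (pt α (g.trans h)) (pt α h) < ε := by
  obtain ⟨δ, hδ, H⟩ := unif h.continuous hε
  refine ⟨δ, hδ, fun g h1 h2 => ?_⟩
  rw [Prod.dist_eq, max_lt_iff]
  constructor
  · rw [ContinuousMap.dist_lt_iff hε]
    intro x
    exact H _ _ (h1 (h.symm x))
  · rw [ContinuousMap.dist_lt_iff hε]
    intro x
    exact H _ _ (h2 (h.symm x))

/-- the homeomorphism `(y, f) ↦ (y, Θ y * f)` -/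
noncomputable def skew (Θ : Circle → Circle) (hΘ : Continuous Θ) : XX ≃ₜ XX where
  toFun x := (x.1, Θ x.1 * x.2)
  invFun x := (x.1, (Θ x.1)⁻¹ * x.2)
  left_inv x := by simp
  right_inv x := by simp
  continuous_toFun := by fun_prop
  continuous_invFun := by fun_prop

lemma skew_apply (Θ : Circle → Circle) (hΘ : Continuous Θ) (x : XX) :
    skew Θ hΘ x = (x.1, Θ x.1 * x.2) := rfl

lemma skew_symm_apply (Θ : Circle → Circle) (hΘ : Continuous Θ) (x : XX) :
    (skew Θ hΘ).symm x = (x.1, (Θ x.1)⁻¹ * x.2) := rfl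

lemma fib_skew (Θ : Circle → Circle) (hΘ : Continuous Θ) : Fib (skew Θ hΘ) := fun _ => rfl

/-- the homeomorphism `(y, f) ↦ (y, k (y ^ q * f))` -/
noncomputable def skewk (k : Circle ≃ₜ Circle) (q : ℕ) : XX ≃ₜ XX :=
  (skew (fun y => y ^ q) (by fun_prop)).trans ((Homeomorph.refl _).prodCongr k)

lemma skewk_apply (k : Circle ≃ₜ Circle) (q : ℕ) (x : XX) :
    skewk k q x = (x.1, k (x.1 ^ q * x.2)) := rfl

lemma skewk_symm_apply (k : Circle ≃ₜ Circle) (q : ℕ) (x : XX) :
    (skewk k q).symm x = (x.1, (x.1 ^ q)⁻¹ * k.symm x.2) := rfl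

lemma fib_skewk (k : Circle ≃ₜ Circle) (q : ℕ) : Fib (skewk k q) := fun _ => rfl

/-- density of the proximality condition -/
theorem dense_prox (α : Circle) (hα : DenseRange fun n : ℕ => α ^ n) (h : XX ≃ₜ XX) (hh : Fib h)
    {ε ε' : ℝ} (hε : 0 < ε) (hε' : 0 < ε') :
    ∃ h' : XX ≃ₜ XX, Fib h' ∧ dist (pt α h') (pt α h) < ε ∧
      ∀ k : Circle × Circle × Circle, ∃ n : ℕ,
        dist ((conj α h')^[n] (k.1, k.2.1)) ((conj α h')^[n] (k.1, k.2.2)) < ε' := by
  obtain ⟨δ, hδ, hpert⟩ := perturb α h hε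
  obtain ⟨δ', hδ', hh'⟩ := unif h.continuous hε'
  obtain ⟨k, hk⟩ := key_prox hδ'
  obtain ⟨δ₂, hδ₂, hk2⟩ := unif k.continuous hδ
  obtain ⟨q, -, hq0, hq⟩ := exists_pow_near_one α hδ₂ 1
  refine ⟨(skewk k q).trans h, (fib_skewk k q).trans hh, hpert _ ?_ ?_, ?_⟩
  · rintro ⟨y, f⟩
    simp only [skewk_symm_apply, rot_apply, skewk_apply]
    rw [Prod.dist_eq, dist_self, max_lt_iff]
    refine ⟨hδ, ?_⟩
    have e1 : (α * y) ^ q * ((y ^ q)⁻¹ * k.symm f) = α ^ q * k.symm f := by
      rw [mul_pow, mul_assoc, mul_inv_cancel_left]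
    simp only [e1]
    have e2 : dist (k (α ^ q * k.symm f)) (k (k.symm f)) < δ := by
      apply hk2
      have := circle_dist_mul_right (k.symm f) (α ^ q) 1
      rw [one_mul] at this
      rw [this]
      exact hq
    rwa [Homeomorph.apply_symm_apply] at e2
  · rintro ⟨y, f⟩
    simp only [skewk_symm_apply, rot_symm_apply, skewk_apply]
    rw [Prod.dist_eq, dist_self, max_lt_iff]
    refine ⟨hδ, ?_⟩
    have e1 : (α⁻¹ * y) ^ q * ((y ^ q)⁻¹ * k.symm f) = (α ^ q)⁻¹ * k.symm f := by
      rw [mul_pow, mul_assoc, mul_inv_cancel_left, inv_pow]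
    simp only [e1]
    have e2 : dist (k ((α ^ q)⁻¹ * k.symm f)) (k (k.symm f)) < δ := by
      apply hk2
      have h1 := circle_dist_mul_right (k.symm f) (α ^ q)⁻¹ 1
      have h2 := circle_dist_mul_left (α ^ q) (α ^ q)⁻¹ 1
      rw [mul_inv_cancel, mul_one, dist_comm] at h2
      rw [one_mul] at h1
      rw [h1, ← h2]
      exact hq
    rwa [Homeomorph.apply_symm_apply] at e2
  · rintro ⟨y, f, f'⟩
    simp only
    set h' := (skewk k q).trans h with hh'def
    have hF : Fib h' := (fib_skewk k q).trans hh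
    obtain ⟨s, hs⟩ := hk (h'.symm (y, f)).2 (h'.symm (y, f')).2
    obtain ⟨z, hz, -⟩ := exists_root_near q hq0 1 s
    -- the good set is open
    have hopen : IsOpen {w : Circle | dist (k (w ^ q * (h'.symm (y, f)).2))
        (k (w ^ q * (h'.symm (y, f')).2)) < δ'} :=
      isOpen_lt (by fun_prop) continuous_const
    have hdense : DenseRange fun n : ℕ => α ^ n * y :=
      (Homeomorph.mulRight y).surjective.denseRange.comp hα (Homeomorph.mulRight y).continuous
    obtain ⟨n, hn⟩ := hdense.exists_mem_open hopen ⟨z, by simp only [mem_ofPred_eq, hz]; exact hs⟩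
    refine ⟨n, ?_⟩
    rw [conj_iter, conj_iter, hF.symm, hF.symm]
    change dist (h (skewk k q (α ^ n * y, (h'.symm (y, f)).2)))
      (h (skewk k q (α ^ n * y, (h'.symm (y, f')).2))) < ε'
    apply hh'
    rw [skewk_apply, skewk_apply, Prod.dist_eq]
    simp only [dist_self, max_lt_iff]
    exact ⟨hδ', hn⟩

/-- density of the minimality condition -/
theorem dense_min (α : Circle) (hα : DenseRange fun n : ℕ => α ^ n) (h : XX ≃ₜ XX) (hh : Fib h)
    {ε ε' : ℝ} (hε : 0 < ε) (hε' : 0 < ε') :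
    ∃ h' : XX ≃ₜ XX, Fib h' ∧ dist (pt α h') (pt α h) < ε ∧
      ∀ k : (Circle × Circle) × (Circle × Circle) × (Circle × Circle × Circle), ∃ n : ℕ,
        max (dist (k.1.2 * α ^ n) k.2.2.1)
          (max (dist ((conj α h')^[n] (k.1.1 * k.1.2, k.2.1.1)).2 k.2.2.2.1)
            (dist ((conj α h')^[2 * n] (k.1.1 * (k.1.2 * k.1.2), k.2.1.2)).2 k.2.2.2.2)) < ε' := by
  obtain ⟨δ, hδ, hpert⟩ := perturb α h hε
  obtain ⟨δ', hδ', hh'⟩ := unif h.continuous hε'
  have hm : 0 < min (min δ (δ' / 2)) ε' := by positivity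
  obtain ⟨Θ, hΘ, hΘ1, hΘ2⟩ := key_theta α hm
  refine ⟨(skew Θ hΘ).trans h, (fib_skew Θ hΘ).trans hh, hpert _ ?_ ?_, ?_⟩
  · rintro ⟨y, f⟩
    simp only [skew_symm_apply, rot_apply, skew_apply]
    rw [Prod.dist_eq, dist_self, max_lt_iff]
    refine ⟨hδ, ?_⟩
    have e1 : dist (Θ (α * y) * ((Θ y)⁻¹ * f)) (Θ y * ((Θ y)⁻¹ * f)) < δ := by
      rw [circle_dist_mul_right]
      exact (hΘ1 y).trans_le ((min_le_left _ _).trans (min_le_left _ _))
    rwa [mul_inv_cancel_left] at e1
  · rintro ⟨y, f⟩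
    simp only [skew_symm_apply, rot_symm_apply, skew_apply]
    rw [Prod.dist_eq, dist_self, max_lt_iff]
    refine ⟨hδ, ?_⟩
    have e1 : dist (Θ (α⁻¹ * y) * ((Θ y)⁻¹ * f)) (Θ y * ((Θ y)⁻¹ * f)) < δ := by
      rw [circle_dist_mul_right]
      have := hΘ1 (α⁻¹ * y)
      rw [mul_inv_cancel_left, dist_comm] at this
      exact this.trans_le ((min_le_left _ _).trans (min_le_left _ _))
    rwa [mul_inv_cancel_left] at e1
  · rintro ⟨⟨y, a⟩, ⟨f, f'⟩, ⟨c, e, e'⟩⟩
    simp only
    set h' := (skew Θ hΘ).trans h with hh'def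
    have hF : Fib h' := (fib_skew Θ hΘ).trans hh
    set f₁ := (h'.symm (y * a, f)).2 with hf₁
    set f₂ := (h'.symm (y * (a * a), f')).2 with hf₂
    set e₁ := (h.symm (y * c, e)).2 with he₁
    set e₂ := (h.symm (y * (c * c), e')).2 with he₂
    obtain ⟨b, hb1, hb2, hb3⟩ := hΘ2 y c (e₁ * f₁⁻¹) (e₂ * f₂⁻¹)
    have hd1 : dist b c < δ' / 2 := hb1.trans_le ((min_le_left _ _).trans (min_le_right _ _))
    have hd1' : dist b c < ε' := hb1.trans_le (min_le_right _ _)
    have hd2 : dist (Θ (y * b)) (e₁ * f₁⁻¹) < δ' :=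
      (hb2.trans_le ((min_le_left _ _).trans (min_le_right _ _))).trans (half_lt_self hδ')
    have hd3 : dist (Θ (y * (b * b))) (e₂ * f₂⁻¹) < δ' :=
      (hb3.trans_le ((min_le_left _ _).trans (min_le_right _ _))).trans (half_lt_self hδ')
    -- the point `b` is good
    have hgood1 : dist (h (y * b, Θ (y * b) * f₁)).2 e < ε' := by
      have h1 : h (y * c, e₁) = (y * c, e) := by
        have h2 : (y * c, e₁) = h.symm (y * c, e) := by
          refine Prod.ext ?_ rfl
          rw [hh.symm]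
        rw [h2, Homeomorph.apply_symm_apply]
      have h3 : dist (h (y * b, Θ (y * b) * f₁)) (h (y * c, e₁)) < ε' := by
        apply hh'
        rw [Prod.dist_eq, max_lt_iff]
        simp only
        constructor
        · rw [circle_dist_mul_left]; linarith
        · have h4 : e₁ = e₁ * f₁⁻¹ * f₁ := by rw [inv_mul_cancel_right]
          rw [h4, circle_dist_mul_right]
          exact hd2
      rw [h1, Prod.dist_eq, max_lt_iff] at h3
      exact h3.2
    have hgood2 : dist (h (y * (b * b), Θ (y * (b * b)) * f₂)).2 e' < ε' := by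
      have h1 : h (y * (c * c), e₂) = (y * (c * c), e') := by
        have h2 : (y * (c * c), e₂) = h.symm (y * (c * c), e') := by
          refine Prod.ext ?_ rfl
          rw [hh.symm]
        rw [h2, Homeomorph.apply_symm_apply]
      have h3 : dist (h (y * (b * b), Θ (y * (b * b)) * f₂)) (h (y * (c * c), e₂)) < ε' := by
        apply hh'
        rw [Prod.dist_eq, max_lt_iff]
        simp only
        constructor
        · rw [circle_dist_mul_left]
          have := circle_dist_mul_mul_le b b c c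
          linarith
        · have h4 : e₂ = e₂ * f₂⁻¹ * f₂ := by rw [inv_mul_cancel_right]
          rw [h4, circle_dist_mul_right]
          exact hd3
      rw [h1, Prod.dist_eq, max_lt_iff] at h3
      exact h3.2
    have hopen : IsOpen {b : Circle | max (dist b c) (max (dist (h (y * b, Θ (y * b) * f₁)).2 e)
        (dist (h (y * (b * b), Θ (y * (b * b)) * f₂)).2 e')) < ε'} :=
      isOpen_lt (by fun_prop) continuous_const
    have hdense : DenseRange fun n : ℕ => a * α ^ n :=
      (Homeomorph.mulLeft a).surjective.denseRange.comp hα (Homeomorph.mulLeft a).continuous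
    obtain ⟨n, hn⟩ := hdense.exists_mem_open hopen
      ⟨b, max_lt hd1' (max_lt hgood1 hgood2)⟩
    refine ⟨n, ?_⟩
    have c1 : (conj α h')^[n] (y * a, f) = h (y * (a * α ^ n), Θ (y * (a * α ^ n)) * f₁) := by
      rw [conj_iter, hF.symm, hh'def, Homeomorph.trans_apply, skew_apply]
      simp only
      have : α ^ n * (y * a) = y * (a * α ^ n) := by
        rw [mul_comm, mul_assoc]
      rw [this]
    have c2 : (conj α h')^[2 * n] (y * (a * a), f') =
        h (y * ((a * α ^ n) * (a * α ^ n)), Θ (y * ((a * α ^ n) * (a * α ^ n))) * f₂) := by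
      rw [conj_iter, hF.symm, hh'def, Homeomorph.trans_apply, skew_apply]
      simp only
      have : α ^ (2 * n) * (y * (a * a)) = y * ((a * α ^ n) * (a * α ^ n)) := by
        rw [mul_comm, mul_assoc, mul_mul_mul_comm, two_mul, pow_add]
      rw [this]
    rw [c1, c2]
    exact hn

end Pool.Agent.Lib.MP_20b9c8_an
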