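import Mathlib
import Pool.Agent.Lib.MP_20b9c8_an.Generic

set_option autoImplicit false

open Filter Topology Set

namespace Pool.Agent.Lib.MP_20b9c8_an

lemma exists_dense_pow : ∃ α : Circle, DenseRange fun n : ℕ => α ^ n := by
  have h1 : DenseRange (fun n : ℤ => n • ((Real.sqrt 2 : ℝ) : AddCircle (1 : ℝ))) :=
    AddCircle.denseRange_zsmul_coe_iff.2 (by simpa using irrational_sqrt_two)
  have hs : Function.Surjective (AddCircle.toCircle : AddCircle (1 : ℝ) → Circle) := by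
    have := (AddCircle.homeomorphCircle (T := 1) one_ne_zero).surjective
    intro z
    obtain ⟨x, hx⟩ := this z
    exact ⟨x, by rw [← hx]; exact (AddCircle.homeomorphCircle_apply one_ne_zero x).symm⟩
  have h2 := hs.denseRange.comp h1 AddCircle.continuous_toCircle
  refine ⟨AddCircle.toCircle ((Real.sqrt 2 : ℝ) : AddCircle (1 : ℝ)), ?_⟩
  have h3 : (AddCircle.toCircle ∘ fun n : ℤ => n • ((Real.sqrt 2 : ℝ) : AddCircle (1 : ℝ))) =
      fun n : ℤ => AddCircle.toCircle ((Real.sqrt 2 : ℝ) : AddCircle (1 : ℝ)) ^ n := by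
    ext n
    simp [AddCircle.toCircle_zsmul]
  rw [h3] at h2
  unfold DenseRange at h2 ⊢
  rw [dense_iff_closure_eq] at h2 ⊢
  rw [← h2]
  exact (closure_range_zpow_eq_pow _).symm

lemma complete_CXX (X : Type) [MetricSpace X] [CompactSpace X] :
    CompleteSpace (C(X, X) × C(X, X)) := inferInstance

/-- the generic map -/
theorem exists_generic : ∃ (α : Circle) (T : XX ≃ₜ XX), (DenseRange fun n : ℕ => α ^ n) ∧
    (∀ x, (T x).1 = α * x.1) ∧
    (∀ ε > 0, ∀ y f f', ∃ n : ℕ, dist (T^[n] (y, f)) (T^[n] (y, f')) < ε) ∧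
    (∀ ε > 0, ∀ y a f f' c e e', ∃ n : ℕ, dist (a * α ^ n) c < ε ∧
      dist (T^[n] (y * a, f)).2 e < ε ∧ dist (T^[2 * n] (y * (a * a), f')).2 e' < ε) := by
  obtain ⟨α, hα⟩ := exists_dense_pow
  set D : Set (C(XX, XX) × C(XX, XX)) := {e | ∃ h : XX ≃ₜ XX, Fib h ∧ e = pt α h} with hD
  set P₁ : ℕ → Set (C(XX, XX) × C(XX, XX)) := fun j =>
    {e | ∀ k : Circle × Circle × Circle, ∃ n : ℕ,
      dist ((e.1)^[n] (k.1, k.2.1)) ((e.1)^[n] (k.1, k.2.2)) < 1 / ((j : ℝ) + 1)} with hP₁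
  set P₂ : ℕ → Set (C(XX, XX) × C(XX, XX)) := fun j =>
    {e | ∀ k : (Circle × Circle) × (Circle × Circle) × (Circle × Circle × Circle), ∃ n : ℕ,
        max (dist (k.1.2 * α ^ n) k.2.2.1)
          (max (dist ((e.1)^[n] (k.1.1 * k.1.2, k.2.1.1)).2 k.2.2.2.1)
            (dist ((e.1)^[2 * n] (k.1.1 * (k.1.2 * k.1.2), k.2.1.2)).2 k.2.2.2.2))
        < 1 / ((j : ℝ) + 1)} with hP₂
  have hc : ∀ n : ℕ, Continuous fun p : C(XX, XX) × XX => (p.1)^[n] p.2 := continuous_iter
  have hO₁ : ∀ j, IsOpen (P₁ j) := by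
    intro j
    refine isOpen_forall_exists_lt (E := C(XX, XX) × C(XX, XX)) (K := Circle × Circle × Circle)
      (fun n p => dist ((p.1.1)^[n] (p.2.1, p.2.2.1)) ((p.1.1)^[n] (p.2.1, p.2.2.2))) ?_ _
    intro n
    refine Continuous.dist ?_ ?_
    · exact (hc n).comp (f := fun p : (C(XX, XX) × C(XX, XX)) × (Circle × Circle × Circle) =>
        (p.1.1, ((p.2.1, p.2.2.1) : XX))) (by fun_prop)
    · exact (hc n).comp (f := fun p : (C(XX, XX) × C(XX, XX)) × (Circle × Circle × Circle) =>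
        (p.1.1, ((p.2.1, p.2.2.2) : XX))) (by fun_prop)
  have hO₂ : ∀ j, IsOpen (P₂ j) := by
    intro j
    refine isOpen_forall_exists_lt (E := C(XX, XX) × C(XX, XX))
      (K := (Circle × Circle) × (Circle × Circle) × (Circle × Circle × Circle))
      (fun n p => max (dist (p.2.1.2 * α ^ n) p.2.2.2.1)
          (max (dist ((p.1.1)^[n] (p.2.1.1 * p.2.1.2, p.2.2.1.1)).2 p.2.2.2.2.1)
            (dist ((p.1.1)^[2 * n] (p.2.1.1 * (p.2.1.2 * p.2.1.2), p.2.2.1.2)).2 p.2.2.2.2.2)))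
      ?_ _
    intro n
    have e1 : Continuous fun p : (C(XX, XX) × C(XX, XX)) ×
        ((Circle × Circle) × (Circle × Circle) × (Circle × Circle × Circle)) =>
        (p.1.1)^[n] ((p.2.1.1 * p.2.1.2, p.2.2.1.1) : XX) :=
      (hc n).comp (f := fun p : (C(XX, XX) × C(XX, XX)) ×
        ((Circle × Circle) × (Circle × Circle) × (Circle × Circle × Circle)) =>
        (p.1.1, ((p.2.1.1 * p.2.1.2, p.2.2.1.1) : XX))) (by fun_prop)
    have e2 : Continuous fun p : (C(XX, XX) × C(XX, XX)) ×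
        ((Circle × Circle) × (Circle × Circle) × (Circle × Circle × Circle)) =>
        (p.1.1)^[2 * n] ((p.2.1.1 * (p.2.1.2 * p.2.1.2), p.2.2.1.2) : XX) :=
      (hc (2 * n)).comp (f := fun p : (C(XX, XX) × C(XX, XX)) ×
        ((Circle × Circle) × (Circle × Circle) × (Circle × Circle × Circle)) =>
        (p.1.1, ((p.2.1.1 * (p.2.1.2 * p.2.1.2), p.2.2.1.2) : XX))) (by fun_prop)
    refine Continuous.max (by fun_prop) (Continuous.max ?_ ?_)
    · exact (continuous_snd.comp e1).dist (by fun_prop)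
    · exact (continuous_snd.comp e2).dist (by fun_prop)
  have hcomp : @CompleteSpace (C(XX, XX) × C(XX, XX))
    (MetricSpace.toPseudoMetricSpace.toUniformSpace) := complete_CXX XX
  obtain ⟨e, he, heP⟩ := baire_closure D ⟨pt α (Homeomorph.refl _), _, fun _ => rfl, rfl⟩
    (fun j => P₁ j ∩ P₂ j) (fun j => (hO₁ j).inter (hO₂ j)) (by
      rintro j d ⟨h, hh, rfl⟩ ε hε
      have hj : (0 : ℝ) < 1 / ((j : ℝ) + 1) := by positivity
      obtain ⟨h₁, hh₁, hd₁, hp₁⟩ := dense_prox α hα h hh (half_pos hε) hj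
      -- openness of P₁ around `pt α h₁`
      have hmem : pt α h₁ ∈ P₁ j := fun k => hp₁ k
      obtain ⟨η, hη, hball⟩ := Metric.isOpen_iff.1 (hO₁ j) _ hmem
      have hm : 0 < min η (ε / 2) := by positivity
      obtain ⟨h₂, hh₂, hd₂, hp₂⟩ := dense_min α hα h₁ hh₁ hm hj
      refine ⟨pt α h₂, ⟨h₂, hh₂, rfl⟩, ?_, ?_, fun k => hp₂ k⟩
      · refine (dist_triangle _ (pt α h₁) _).trans_lt ?_
        have := hd₂.trans_le (min_le_right _ _)
        linarith
      · exact hball (hd₂.trans_le (min_le_left _ _)))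
  -- closed conditions
  have hclosed : IsClosed {e : C(XX, XX) × C(XX, XX) | ∀ x, e.1 (e.2 x) = x ∧ e.2 (e.1 x) = x ∧
      (e.1 x).1 = α * x.1} := by
    rw [ofPred_forall]
    refine isClosed_iInter fun x => ?_
    refine IsClosed.inter ?_ (IsClosed.inter ?_ ?_)
    · refine isClosed_eq ?_ continuous_const
      exact continuous_fst.eval (continuous_snd.eval continuous_const)
    · refine isClosed_eq ?_ continuous_const
      exact continuous_snd.eval (continuous_fst.eval continuous_const)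
    · refine isClosed_eq ?_ continuous_const
      exact continuous_fst.comp (continuous_fst.eval continuous_const)
  have hsub : D ⊆ {e : C(XX, XX) × C(XX, XX) | ∀ x, e.1 (e.2 x) = x ∧ e.2 (e.1 x) = x ∧
      (e.1 x).1 = α * x.1} := by
    rintro _ ⟨h, hh, rfl⟩ x
    refine ⟨(conj α h).apply_symm_apply x, (conj α h).symm_apply_apply x, ?_⟩
    change (conj α h x).1 = α * x.1
    rw [conj_apply, hh, rot_apply, hh.symm]
  have hprop := closure_minimal hsub hclosed he
  let T : XX ≃ₜ XX :=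
    { toFun := e.1
      invFun := e.2
      left_inv := fun x => (hprop x).2.1
      right_inv := fun x => (hprop x).1
      continuous_toFun := e.1.continuous
      continuous_invFun := e.2.continuous }
  refine ⟨α, T, hα, fun x => (hprop x).2.2, ?_, ?_⟩
  · intro ε hε y f f'
    obtain ⟨j, hj⟩ := exists_nat_one_div_lt hε
    obtain ⟨n, hn⟩ := (heP j).1 (y, f, f')
    exact ⟨n, lt_trans hn hj⟩
  · intro ε hε y a f f' c e₁ e₂
    obtain ⟨j, hj⟩ := exists_nat_one_div_lt hε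
    obtain ⟨n, hn⟩ := (heP j).2 ((y, a), (f, f'), (c, e₁, e₂))
    have hn' := lt_trans hn hj
    rw [max_lt_iff, max_lt_iff] at hn'
    exact ⟨n, hn'.1, hn'.2.1, hn'.2.2⟩

end Pool.Agent.Lib.MP_20b9c8_an
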