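import Mathlib
import Pool.Agent.Lib.MP_20b9c8_an.Defs
import Pool.Agent.Lib.MP_20b9c8_an.Exists

set_option autoImplicit false

open Filter Topology Set

namespace Pool.Agent.Lib.MP_20b9c8_an

lemma homeo_pow_apply {X : Type} [TopologicalSpace X] (T : X ≃ₜ X) (n : ℕ) (x : X) :
    (T ^ n) x = T^[n] x := by
  induction n with
  | zero => rfl
  | succ n ih =>
    rw [Function.iterate_succ_apply', pow_succ', ← ih]
    rfl

lemma isProximalExt_id (X : Sys) : IsProximalExt X X id := by
  intro x x' h ε hε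
  refine ⟨0, ?_⟩
  have : x = x' := h
  rw [this, dist_self]
  exact hε

lemma isFactorMap_id (X : Sys) : IsFactorMap X X id :=
  ⟨continuous_id, Function.surjective_id, fun _ => rfl⟩

/-- the one-point system -/
def ptSys : Sys where
  X := Unit
  T := Homeomorph.refl _

/-- A proximal minimal extension of an equicontinuous system is PI -/
theorem isPI_of_proximal {X Y : Sys} (hX : IsMinimal X) (hY : IsEquicontinuous Y) (π : X.X → Y.X)
    (hπ : IsFactorMap X Y π) (hp : IsProximalExt X Y π) : IsPI X := by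
  classical
  let A : Factor X := ⟨ptSys, fun _ => (), ⟨continuous_const, fun _ => ⟨Classical.arbitrary _, rfl⟩,
    fun _ => rfl⟩⟩
  let B : Factor X := ⟨Y, π, hπ⟩
  let C : Factor X := ⟨X, id, isFactorMap_id X⟩
  let F : Ordinal.{0} → Factor X := fun ν => if ν = 0 then A else if ν = 1 then B else C
  have h0 : F 0 = A := if_pos rfl
  have h1 : F 1 = B := by
    simp only [F, one_ne_zero, if_false, if_true]
  have h2 : ∀ ν, ν ≠ 0 → ν ≠ 1 → F ν = C := by
    intro ν hν hν'
    simp only [F, hν, hν', if_false]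
  have two_ne_one' : (2 : Ordinal.{0}) ≠ 1 := by
    have : (1 : Ordinal.{0}) < 2 := one_lt_two
    exact this.ne'
  refine ⟨X, id, 2, F, hX, isFactorMap_id X, isProximalExt_id X, ?_, ?_, ?_, ?_⟩
  · rw [h0]
    exact inferInstanceAs (Subsingleton Unit)
  · rw [h2 2 two_ne_zero two_ne_one']
    exact Function.injective_id
  · intro μ ν hμν hν
    rcases eq_or_ne μ 0 with rfl | hμ0
    · rcases eq_or_ne ν 0 with rfl | hν0
      · exact ⟨id, isFactorMap_id _, fun _ => rfl, fun _ => Or.inl (isProximalExt_id _)⟩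
      · rcases eq_or_ne ν 1 with rfl | hν1
        · rw [h0, h1]
          refine ⟨fun _ => (), ⟨continuous_const, fun _ => ⟨Classical.arbitrary _, rfl⟩,
            fun _ => rfl⟩, fun _ => rfl, fun _ => Or.inr ?_⟩
          intro ε hε
          obtain ⟨δ, hδ, h⟩ := hY ε hε
          exact ⟨δ, hδ, fun x x' _ hd n => h x x' hd n⟩
        · rw [h0, h2 ν hν0 hν1]
          refine ⟨fun _ => (), ⟨continuous_const, fun _ => ⟨Classical.arbitrary _, rfl⟩,
            fun _ => rfl⟩, fun _ => rfl, fun h => ?_⟩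
          rw [zero_add] at h
          exact absurd h hν1
    · rcases eq_or_ne μ 1 with rfl | hμ1
      · rcases eq_or_ne ν 1 with rfl | hν1
        · exact ⟨id, isFactorMap_id _, fun _ => rfl, fun _ => Or.inl (isProximalExt_id _)⟩
        · have hν0 : ν ≠ 0 := fun h => by
            rw [h] at hμν
            exact hμ0 (le_antisymm hμν zero_le)
          rw [h1, h2 ν hν0 hν1]
          exact ⟨π, hπ, fun _ => rfl, fun _ => Or.inl hp⟩
      · have hμ2 : (1 : Ordinal.{0}) < μ :=
          lt_of_le_of_ne (Order.one_le_iff_pos.2 (pos_iff_ne_zero.2 hμ0)) (Ne.symm hμ1)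
        have hν2 : (1 : Ordinal.{0}) < ν := hμ2.trans_le hμν
        rw [h2 μ hμ0 hμ1, h2 ν (zero_lt_one.trans hν2).ne' hν2.ne']
        exact ⟨id, isFactorMap_id _, fun _ => rfl, fun _ => Or.inl (isProximalExt_id _)⟩
  · intro ν hν hlim w w' h
    exfalso
    have h3 : (1 : Ordinal.{0}) < ν := by
      have h4 : (0 : Ordinal.{0}) < ν := by
        rw [pos_iff_ne_zero]
        rintro rfl
        exact hlim.1 isMin_bot
      have := hlim.succ_lt h4
      rwa [Order.succ_eq_add_one, zero_add] at this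
    have h5 := hlim.succ_lt h3
    rw [Order.succ_eq_add_one, one_add_one_eq_two] at h5
    exact absurd hν (not_le.2 h5)

/-- the closed invariant set over the coset of `y` -/
def Wset (y : Circle) : Set (XX × XX) := {p | ∃ a : Circle, p.1.1 = y * a ∧ p.2.1 = y * (a * a)}

lemma isClosed_Wset (y : Circle) : IsClosed (Wset y) := by
  have : Wset y = {p : XX × XX | p.2.1 = y * ((y⁻¹ * p.1.1) * (y⁻¹ * p.1.1))} := by
    ext p
    constructor
    · rintro ⟨a, h1, h2⟩
      change p.2.1 = _
      rw [h1, h2, inv_mul_cancel_left]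
    · intro h
      exact ⟨y⁻¹ * p.1.1, by rw [mul_inv_cancel_left], h⟩
  rw [this]
  exact isClosed_eq (by fun_prop) (by fun_prop)

theorem exists_system : ∃ (X Y : Sys) (π : X.X → Y.X),
    IsMinimal X ∧ IsPI X ∧ IsEquicontinuous Y ∧ IsFactorMap X Y π ∧ IsOpenMap π ∧
    IsProximalExt X Y π ∧ ¬ Function.Injective π ∧
    ∀ x : X.X, IsMinimalPoint (X.T.prodCongr (X.T ^ 2)) (x, x) := by
  obtain ⟨α, T, hα, hT1, hprox, hmin⟩ := exists_generic
  let X : Sys := ⟨XX, T⟩
  let Y : Sys := ⟨Circle, Homeomorph.mulLeft α⟩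
  -- minimality
  have hXmin : IsMinimal X := by
    rintro ⟨y, f⟩
    refine Set.eq_univ_of_forall ?_
    rintro ⟨y', e⟩
    refine Metric.mem_closure_iff.2 fun ε hε => ?_
    obtain ⟨n, hn1, hn2, -⟩ := hmin ε hε y 1 f f (y⁻¹ * y') e e
    refine ⟨(T ^ (n : ℤ)) (y, f), ⟨n, rfl⟩, ?_⟩
    rw [zpow_natCast, homeo_pow_apply, dist_comm, Prod.dist_eq, max_lt_iff]
    rw [mul_one] at hn2
    refine ⟨?_, hn2⟩
    have h1 : ∀ m : ℕ, (T^[m] (y, f)).1 = α ^ m * y := by
      intro m
      induction m with
      | zero => simp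
      | succ m ih => rw [Function.iterate_succ_apply', hT1, ih, pow_succ', mul_assoc]
    simp only [h1]
    rw [one_mul] at hn1
    rw [mul_comm, ← circle_dist_mul_left y⁻¹, inv_mul_cancel_left]
    exact hn1
  -- equicontinuity
  have hYpow : ∀ (n : ℤ) (z : Circle), ((Homeomorph.mulLeft α) ^ n : Circle ≃ₜ Circle) z = α ^ n * z := by
    intro n z
    have h1 : ∀ (m : ℕ) (z : Circle), ((Homeomorph.mulLeft α) ^ m : Circle ≃ₜ Circle) z = α ^ m * z := by
      intro m
      induction m with
      | zero => intro z; simp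
      | succ m ih =>
        intro z
        rw [pow_succ', pow_succ', mul_assoc, ← ih]
        rfl
    rcases Int.eq_nat_or_neg n with ⟨m, rfl | rfl⟩
    · rw [zpow_natCast, zpow_natCast, h1]
    · rw [zpow_neg, zpow_neg, zpow_natCast, zpow_natCast]
      have h2 : ((Homeomorph.mulLeft α) ^ m : Circle ≃ₜ Circle) ((α ^ m)⁻¹ * z) = z := by
        rw [h1, mul_inv_cancel_left]
      have h3 : (((Homeomorph.mulLeft α) ^ m : Circle ≃ₜ Circle)⁻¹)
          (((Homeomorph.mulLeft α) ^ m : Circle ≃ₜ Circle) ((α ^ m)⁻¹ * z)) = (α ^ m)⁻¹ * z :=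
        Homeomorph.symm_apply_apply _ _
      rw [h2] at h3
      exact h3
  have hYeq : IsEquicontinuous Y := by
    intro ε hε
    refine ⟨ε, hε, fun x x' h n => ?_⟩
    change dist (((Homeomorph.mulLeft α) ^ n : Circle ≃ₜ Circle) x)
      (((Homeomorph.mulLeft α) ^ n : Circle ≃ₜ Circle) x') < ε
    rw [hYpow, hYpow, circle_dist_mul_left]
    exact h
  have hfac : IsFactorMap X Y (Prod.fst : Circle × Circle → Circle) :=
    ⟨continuous_fst, Prod.fst_surjective, hT1⟩
  have hp : IsProximalExt X Y (Prod.fst : Circle × Circle → Circle) := by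
    rintro ⟨y, f⟩ ⟨y', f'⟩ h ε hε
    obtain rfl : y = y' := h
    obtain ⟨n, hn⟩ := hprox ε hε y f f'
    refine ⟨n, ?_⟩
    change dist ((T ^ (n : ℤ)) (y, f)) ((T ^ (n : ℤ)) (y, f')) < ε
    rw [zpow_natCast, homeo_pow_apply, homeo_pow_apply]
    exact hn
  refine ⟨X, Y, (Prod.fst : Circle × Circle → Circle), hXmin,
    isPI_of_proximal hXmin hYeq _ hfac hp, hYeq, hfac, isOpenMap_fst, hp, ?_, ?_⟩
  · intro h
    have h1 : ((1 : Circle), (1 : Circle)) = (1, -1) := h rfl
    have h2 : (1 : Circle) = -1 := (Prod.ext_iff.1 h1).2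
    exact Circle.neg_ne_self 1 h2.symm
  · rintro ⟨y, f⟩
    set S : XX × XX ≃ₜ XX × XX := T.prodCongr (T ^ 2) with hS
    -- powers of S
    have hSn : ∀ (n : ℕ) (p : XX × XX), (S ^ n) p = (T^[n] p.1, T^[2 * n] p.2) := by
      intro n
      induction n with
      | zero => intro p; rfl
      | succ n ih =>
        intro p
        rw [pow_succ', Homeomorph.mul_apply, ih]
        rw [hS]
        change (T (T^[n] p.1), (T ^ 2) (T^[2 * n] p.2)) = _
        rw [homeo_pow_apply, ← Function.iterate_succ_apply' (⇑T), ← Function.iterate_add_apply]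
        rw [show 2 + 2 * n = 2 * (n + 1) by ring]
    have h1 : ∀ (m : ℕ) (x : XX), (T^[m] x).1 = α ^ m * x.1 := by
      intro m x
      induction m with
      | zero => simp
      | succ m ih => rw [Function.iterate_succ_apply', hT1, ih, pow_succ', mul_assoc]
    -- W is forward and backward invariant
    have hinv : ∀ p, p ∈ Wset y ↔ S p ∈ Wset y := by
      intro p
      have h2 : S p = (T^[1] p.1, T^[2 * 1] p.2) := by
        have := hSn 1 p
        rwa [pow_one] at this
      have h3 : (S p).1.1 = α * p.1.1 := by rw [h2, h1, pow_one]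
      have h4 : (S p).2.1 = α ^ 2 * p.2.1 := by rw [h2, h1]
      constructor
      · rintro ⟨a, ha1, ha2⟩
        refine ⟨α * a, ?_, ?_⟩
        · rw [h3, ha1, mul_left_comm]
        · rw [h4, ha2, pow_two, mul_left_comm, mul_mul_mul_comm α a α a]
      · rintro ⟨a, ha1, ha2⟩
        refine ⟨α⁻¹ * a, ?_, ?_⟩
        · rw [h3] at ha1
          rw [mul_left_comm, ← ha1, inv_mul_cancel_left]
        · rw [h4] at ha2
          have : p.2.1 = (α ^ 2)⁻¹ * (y * (a * a)) := by rw [← ha2, inv_mul_cancel_left]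
          rw [this, mul_left_comm, mul_mul_mul_comm, pow_two, mul_inv]
    have hinvz : ∀ (n : ℤ) (p : XX × XX), p ∈ Wset y → (S ^ n) p ∈ Wset y := by
      intro n
      induction n using Int.induction_on with
      | zero => intro p hp; exact hp
      | succ n ih =>
        intro p hp
        rw [add_comm, zpow_add, zpow_one, Homeomorph.mul_apply]
        exact (hinv _).1 (ih p hp)
      | pred n ih =>
        intro p hp
        rw [hinv]
        have : S ((S ^ (-(n : ℤ) - 1)) p) = (S ^ (-(n : ℤ))) p := by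
          rw [← Homeomorph.mul_apply, ← zpow_one_add]
          congr 2
          ring
        rw [this]
        exact ih p hp
    -- every orbit closure in W is W
    have hW : ∀ p ∈ Wset y, orbitClosure S p = Wset y := by
      intro p hp
      apply subset_antisymm
      · refine closure_minimal ?_ (isClosed_Wset y)
        rintro _ ⟨n, rfl⟩
        exact hinvz n p hp
      · rintro q ⟨c, hc1, hc2⟩
        obtain ⟨a, ha1, ha2⟩ := hp
        refine Metric.mem_closure_iff.2 fun ε hε => ?_
        obtain ⟨n, hn1, hn2, hn3⟩ := hmin (ε / 2) (half_pos hε) y a p.1.2 p.2.2 c q.1.2 q.2.2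
        refine ⟨(S ^ (n : ℤ)) p, ⟨n, rfl⟩, ?_⟩
        rw [zpow_natCast, hSn, dist_comm, Prod.dist_eq, max_lt_iff, Prod.dist_eq, Prod.dist_eq,
          max_lt_iff, max_lt_iff]
        have e1 : p.1 = (y * a, p.1.2) := Prod.ext ha1 rfl
        have e2 : p.2 = (y * (a * a), p.2.2) := Prod.ext ha2 rfl
        rw [← e1] at hn2
        rw [← e2] at hn3
        refine ⟨⟨?_, hn2.trans (half_lt_self hε)⟩, ⟨?_, hn3.trans (half_lt_self hε)⟩⟩
        · change dist (T^[n] p.1).1 q.1.1 < ε
          rw [h1, ha1, hc1, mul_left_comm, circle_dist_mul_left, mul_comm]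
          exact hn1.trans (half_lt_self hε)
        · change dist (T^[2 * n] p.2).1 q.2.1 < ε
          have : α ^ (2 * n) * (y * (a * a)) = y * ((a * α ^ n) * (a * α ^ n)) := by
            rw [mul_left_comm, mul_mul_mul_comm a (α ^ n), two_mul, pow_add, mul_comm (a * a)]
          rw [h1, ha2, hc2, this, circle_dist_mul_left]
          have := circle_dist_mul_mul_le (a * α ^ n) (a * α ^ n) c c
          linarith
    have hmem : (((y, f) : XX), ((y, f) : XX)) ∈ Wset y := ⟨1, by simp, by simp⟩
    intro q hq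
    have hq' : q ∈ orbitClosure S (((y, f) : XX), ((y, f) : XX)) := hq
    rw [hW _ hmem] at hq'
    exact (hW q hq').trans (hW _ hmem).symm

end Pool.Agent.Lib.MP_20b9c8_an
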